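import Pool.Agent.Helper96.GD.Avoid

/-!
# Density-one sets below a set and outside countably many upper cones
-/

open Filter

namespace Pool.Agent.Results.MP_4b528e_lc.ConeAvoidance

open Pool.Agent.Helper96.GD Pool.Agent.Helper92.Gen

/-- Let `A` and `D 0, D 1, ...` be sets which are not generically computable. Then there is a
set `B` of density one, not generically computable, which is uniformly generically reducible to
`A` and to which no `D i` is uniformly generically reducible. -/
theorem result (A : Set ℕ) (hA : ¬ GC A) (D : ℕ → Set ℕ) (hD : ∀ i, ¬ GC (D i)) :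
    ∃ B : Set ℕ,
      Tendsto (fun n : ℕ => (((B ∩ Set.Iio n).ncard : ℝ) / (n : ℝ))) atTop (nhds 1) ∧
      ¬ GC B ∧ Red B A ∧ ∀ i, ¬ Red (D i) B := by
  obtain ⟨B, h1, h2, h3, h4⟩ := avoid hA hD
  refine ⟨B, ?_, h2, h3, h4⟩
  rw [dens_iff_sm]
  exact h1

end Pool.Agent.Results.MP_4b528e_lc.ConeAvoidance
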